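import Pool.Agent.MPf94db8.Main

/-!
# Nevanlinna currents of leaves of transcendental vector fields

The definitions are in `Pool.Agent.MPf94db8.Defs`, the proof is in the other files of
`Pool.Agent.MPf94db8`.
-/

namespace Pool.Agent.Results.MP_f94db8_an.CurrentsNotAtInfinity

open Pool.Agent.MPf94db8

/-- For every `k ≥ 2` there are a holomorphic vector field `Z` on `ℂ^k`, not of the form `h P`, a
leaf `L` of `Z` which is not contained in an algebraic curve and a uniformization `φ : ℂ → L` such
that the Nevanlinna currents of `φ` have cluster points, and no cluster point is supported in the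
hyperplane at infinity. -/
theorem result (k : ℕ) (hk : 2 ≤ k) :
    ∃ (Z : (Fin k → ℂ) → (Fin k → ℂ)) (L : Set (Fin k → ℂ)) (φ : ℂ → (Fin k → ℂ)),
      Differentiable ℂ Z ∧ ¬ IsFunctionTimesPolynomial Z ∧
      IsLeaf Z L ∧ (∀ A : Set (Fin k → ℂ), IsAlgebraicCurve A → ¬ L ⊆ A) ∧
      IsUniformization Z L φ ∧
      (∃ τ : TestForm k → ℂ, IsClusterPoint φ τ) ∧
      ∀ τ : TestForm k → ℂ, IsClusterPoint φ τ → ¬ SupportedAtInfinity τ := by
  obtain ⟨n, rfl⟩ : ∃ n, k = n + 2 := ⟨k - 2, by omega⟩
  exact ⟨vf n, leafSet n, phi n, differentiable_vf, not_functionTimesPolynomial, isLeaf_leafSet,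
    not_subset_algebraicCurve, isUniformization_phi, exists_clusterPoint_phi,
    not_supportedAtInfinity⟩

end Pool.Agent.Results.MP_f94db8_an.CurrentsNotAtInfinity
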